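import Pool.Agent.H95.INS.Targets2

/-!
# The insertion lemma: the inputs from Part B and Part A
-/

open MeasureTheory ProbabilityTheory
open scoped ENNReal

namespace Pool.Agent.H95.INS

open Pool.Agent.H99.NS Pool.Agent.H22.LPP

/-- Sharp lower bound of the upper tail at the constant `cs` (input from Part A). -/
def LTS (q cs : ℝ) : Prop := ∀ ε : ℝ, 0 < ε → ∃ K₀ : ℝ, 0 < K₀ ∧ ∀ K : ℝ, K₀ ≤ K →
  ∃ N₀ : ℕ, ∀ m : ℕ, N₀ ≤ m →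
  ENNReal.ofReal (Real.exp (-((cs + ε) * K ^ ((3:ℝ)/2)))) ≤
    PE q {ω | mu q * (2 * m) + K * ((2 * m : ℕ) : ℝ) ^ ((1:ℝ)/3) ≤ T ω (0, 0) ((2 * m : ℕ), 0)}

def T_IA : Prop := B_BA → ∀ q : ℝ, 0 < q → q < 1 → I_A q

def T_IB : Prop := B_BL → ∀ q : ℝ, 0 < q → q < 1 → I_B q

def T_IC : Prop := B_BC → ∀ q : ℝ, 0 < q → q < 1 → I_C q

def T_IS : Prop := B_BCS → ∀ q cs : ℝ, 0 < q → q < 1 → 0 < cs → UTS q cs → I_S q cs

def T_IL : Prop := ∀ q cs : ℝ, 0 < q → q < 1 → LTS q cs → I_L q cs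

end Pool.Agent.H95.INS
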