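import Pool.Agent.H95.INS.Targets
import Pool.Agent.H22.LPP.TargetsB
import Pool.Agent.H97.NF.Defs

/-!
# The insertion lemma: targets of the probabilistic part
-/

open MeasureTheory ProbabilityTheory
open scoped ENNReal

namespace Pool.Agent.H95.INS

set_option linter.unusedVariables false

open Pool.Agent.H99.NS Pool.Agent.H22.LPP
open Pool.Agent.H97.NF (PEnv eA eB PN)

/-! ## Inputs in the form needed here (all derived from Part B) -/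

/-- All pairs upper bound in the box of time scale `8 n` and half width `R w`. -/
def I_A (q : ℝ) : Prop := ∃ C c : ℝ, 0 < C ∧ 0 < c ∧ ∀ (k : ℕ) (R : ℤ) (Y : ℝ), 1 ≤ k → 1 ≤ R →
  1 ≤ Y → PE q {ω | ∃ (s t : ℤ) (g : ℤ → ℤ), -(32 * 64 ^ (k - 1)) ≤ s ∧ s ≤ t ∧
      t ≤ 32 * 64 ^ (k - 1) ∧ IsPath s t g ∧ |g s| ≤ R * 16 ^ k ∧
      sp q (64 ^ k / 50) s t g + Y * 4 ^ k < wt ω s t g} ≤
    ENNReal.ofReal (C * R * Real.exp (-(c * Y)))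

/-- Crossing upper bound for slabs of height `n` or `4 n`, half width `R w`. -/
def I_C (q : ℝ) : Prop := ∃ C c : ℝ, 0 < C ∧ 0 < c ∧ ∀ R : ℤ, 1 ≤ R → ∃ k₀ : ℕ, 1 ≤ k₀ ∧
  ∀ k : ℕ, k₀ ≤ k → ∀ s t : ℤ, (t - s = 8 * 64 ^ (k - 1) ∨ t - s = 32 * 64 ^ (k - 1)) →
  ∀ Y : ℝ, 0 < Y → PE q {ω | ∃ x y : ℤ, |x| ≤ R * 16 ^ k ∧ |y| ≤ R * 16 ^ k ∧
      Reach (s, x) (t, y) ∧ par q (s, x) (t, y) + Y * 4 ^ k < T ω (s, x) (t, y)} ≤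
    ENNReal.ofReal (C * R ^ 2 * Real.exp (-(c * Y)))

/-- Crossing lower bound, windows of half width `w`, slabs of height `n`, `4 n` or `8 n`. -/
def I_B (q : ℝ) : Prop := ∃ C c : ℝ, 0 < C ∧ 0 < c ∧ ∃ k₀ : ℕ, 1 ≤ k₀ ∧
  ∀ k : ℕ, k₀ ≤ k → ∀ s t : ℤ, (t - s = 8 * 64 ^ (k - 1) ∨ t - s = 32 * 64 ^ (k - 1) ∨
    t - s = 64 ^ k) →
  ∀ Y : ℝ, 0 < Y → PE q {ω | ∃ x y : ℤ, |x| ≤ 16 ^ k ∧ |y| ≤ 16 ^ k ∧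
      Reach (s, x) (t, y) ∧ T ω (s, x) (t, y) < par q (s, x) (t, y) - Y * 4 ^ k} ≤
    ENNReal.ofReal (C * Real.exp (-(c * Y)))

/-- Sharp crossing upper bound for the slab of height `n` (`n ^ (1/3) = f / 2`). -/
def I_S (q cs : ℝ) : Prop := ∀ ε : ℝ, 0 < ε → ∃ K₀ : ℝ, 0 < K₀ ∧ ∀ K : ℝ, K₀ ≤ K →
  ∀ R : ℤ, 1 ≤ R → 16 * (R : ℝ) ≤ K → ∃ k₀ : ℕ, 1 ≤ k₀ ∧ ∀ k : ℕ, k₀ ≤ k → ∀ s : ℤ,
  PE q {ω | ∃ x y : ℤ, |x| ≤ R * 16 ^ k ∧ |y| ≤ R * 16 ^ k ∧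
      Reach (s, x) (s + 8 * 64 ^ (k - 1), y) ∧
      par q (s, x) (s + 8 * 64 ^ (k - 1), y) + K / 2 * 4 ^ k ≤
        T ω (s, x) (s + 8 * 64 ^ (k - 1), y)} ≤
    ENNReal.ofReal (10000 * R ^ 2 * Real.exp (-((cs - ε) * K ^ ((3:ℝ)/2))))

/-- Sharp lower bound of the upper tail for the slab of height `n`. -/
def I_L (q cs : ℝ) : Prop := ∀ ε : ℝ, 0 < ε → ∃ K₀ : ℝ, 0 < K₀ ∧ ∀ K : ℝ, K₀ ≤ K →
  ∃ k₀ : ℕ, 1 ≤ k₀ ∧ ∀ k : ℕ, k₀ ≤ k → ∀ s : ℤ,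
  ENNReal.ofReal (Real.exp (-((cs + ε) * K ^ ((3:ℝ)/2)))) ≤
    PE q {ω | mu q * (8 * 64 ^ (k - 1)) + K / 2 * 4 ^ k ≤ T ω (s, 0) (s + 8 * 64 ^ (k - 1), 0)}

/-- Crude upper bound for all paths starting in the wide strip. -/
def CA (D : Dat) (ω : Env) : Prop :=
  ∀ s t g, -(4 * D.n) ≤ s → s ≤ t → t ≤ 4 * D.n → IsPath s t g →
    |g s| ≤ 16 * D.A * D.w → wt ω s t g ≤ sp D.q (8 * D.n / 50) s t g + D.Y * D.f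

/-! ## Finite dependence and measurability -/

/-- Every property of finitely many weights is measurable. -/
def T_FIM : Prop := ∀ (A : Set Site) (E : Env → Prop), A.Finite → DepOn A E →
  MeasurableSet {ω | E ω}

/-- The sites of the wide strip on the time interval `(s,t]`. -/
def Wd (D : Dat) (s t : ℤ) : Set Site := {x | s < x.1 ∧ x.1 ≤ t ∧ |x.2| < 16 * D.A * D.w}

/-- The sites of the narrow strip (contained in the box for `-4n ≤ s`, `t ≤ 4n`). -/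
def Nr (D : Dat) (s t : ℤ) : Set Site := {x | s < x.1 ∧ x.1 ≤ t ∧ |x.2| < D.A / 2 * D.w}

/-- Dependence of the events. -/
def T_DEP : Prop := ∀ (D : Dat) (s t : ℤ) (c : ℝ) (x y : ℤ),
  DepOn (Wd D s t) (fun ω => UB D ω s t c) ∧ DepOn (Wd D s t) (fun ω => ND D ω s t c) ∧
  DepOn (Wd D (-(4 * D.n)) (4 * D.n)) (fun ω => CU D ω) ∧
  DepOn {x | -(4 * D.n) < x.1 ∧ x.1 ≤ 4 * D.n ∧ |x.2| ≤ 16 * D.A * D.w + 8 * D.n}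
    (fun ω => CA D ω) ∧
  DepOn (Nr D s t) (fun ω => HWs D ω s t c) ∧ DepOn (Nr D s t) (fun ω => CN D ω s t x y) ∧
  (Wd D s t).Finite ∧ (Nr D s t).Finite

/-- Dependence of the global condition. -/
def T_DER : Prop := ∀ (D : Dat) (o e : Site), Reach o e → o.1 ≤ -(4 * D.n) → 4 * D.n ≤ e.1 →
  DepOn (dom o e) (fun ω => RR D ω o e)

/-- Markov inequality for the conditional probability. -/
def T_MAR : Prop := ∀ (D : Dat) (E : Env → Prop) (a : ℝ≥0∞), MeasurableSet {ω | E ω} → a ≠ 0 →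
  a ≠ ∞ → PE D.q {out | ¬ Pin D out E ≤ a} ≤ PE D.q {ω | E ω} / a

/-! ## Estimates for the events (data `dat q k A K B H Y X`) -/

/-- `P(¬ CA)` (and `CA` implies `CU`). -/
def T_PCU : Prop := ∀ q : ℝ, 0 < q → q < 1 → I_A q → ∃ C c : ℝ, 0 < C ∧ 0 < c ∧
  ∀ (k : ℕ) (A X : ℤ) (K B H Y : ℝ), 1 ≤ k → 1 ≤ A → 1 ≤ Y →
  PE q {ω | ¬ CA (dat q k A K B H Y X) ω} ≤ ENNReal.ofReal (C * A * Real.exp (-(c * Y)))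

/-- `P(¬ Sm)`. -/
def T_PSM : Prop := ∀ q : ℝ, 0 < q → q < 1 → I_C q → ∃ C c : ℝ, 0 < C ∧ 0 < c ∧
  ∀ A : ℤ, 1 ≤ A → ∃ k₀ : ℕ, 1 ≤ k₀ ∧ ∀ (k : ℕ) (X : ℤ) (K B H Y : ℝ), k₀ ≤ k → 0 < H →
  PE q {ω | ¬ Sm (dat q k A K B H Y X) ω} ≤ ENNReal.ofReal (C * A ^ 2 * Real.exp (-(c * H)))

/-- A confined path (deterministic): if `CA` holds, paths of large weight between
points of the window of half width `w` stay in the narrow strip. -/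
def T_CNF : Prop := ∀ (D : Dat) (ω : Env), D.Ok → 40 ≤ D.A → CA D ω → ∀ (s t : ℤ) (g : ℤ → ℤ),
  -(4 * D.n) ≤ s → D.n ≤ t - s → t ≤ 4 * D.n → t - s ≤ 4 * D.n → IsPath s t g → |g s| ≤ D.w →
  |g t| ≤ D.w → par D.q (s, g s) (t, g t) - D.H * D.f / 1000 ≤ wt ω s t g →
  Stay (D.A / 2 * D.w) s t g

/-- Connectors exist (deterministic). -/
def T_CNX : Prop := ∀ (D : Dat) (ω : Env), D.Ok → 40 ≤ D.A → CA D ω →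
  (∀ (s t x y : ℤ), ((s = -(4 * D.n) ∧ t = -(3 * D.n)) ∨ (s = -(2 * D.n) ∧ t = 2 * D.n) ∨
    (s = 3 * D.n ∧ t = 4 * D.n)) → |x| ≤ D.w → |y| ≤ D.w → Reach (s, x) (t, y) →
    par D.q (s, x) (t, y) - D.H * D.f / 1000 ≤ T ω (s, x) (t, y)) →
  D.w ≤ D.n / 2 → LO D ω

/-- `P(¬ LO)`. -/
def T_PLO : Prop := ∀ q : ℝ, 0 < q → q < 1 → I_A q → I_B q → ∃ C c : ℝ, 0 < C ∧ 0 < c ∧
  ∃ k₀ : ℕ, 1 ≤ k₀ ∧ ∀ (k : ℕ) (A X : ℤ) (K B H Y : ℝ), k₀ ≤ k → 40 ≤ A → 1 ≤ Y →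
  (dat q k A K B H Y X).Ok →
  PE q {ω | ¬ LO (dat q k A K B H Y X) ω} ≤
    ENNReal.ofReal (C * A * Real.exp (-(c * Y)) + C * Real.exp (-(c * H)))

/-- Lower bound for `pH`. -/
def T_PHL : Prop := ∀ q cs : ℝ, 0 < q → q < 1 → 0 < cs → I_A q → I_L q cs → ∀ ε : ℝ, 0 < ε →
  ∃ C₂ : ℝ, 0 < C₂ ∧ ∃ H₀ : ℝ, ∀ (A : ℤ) (K B H Y : ℝ), H₀ ≤ H → 1 ≤ Y → C₂ * H ^ ((3:ℝ)/2) ≤ Y →
  40 ≤ A → (A : ℝ) ≤ H → ∃ k₀ : ℕ, 1 ≤ k₀ ∧ ∀ (k : ℕ) (X : ℤ), k₀ ≤ k →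
  (dat q k A K B H Y X).Ok →
  ENNReal.ofReal (Real.exp (-((cs + ε) * (2 * H) ^ ((3:ℝ)/2)))) ≤ 2 * pH (dat q k A K B H Y X)

/-- Upper bound for large excesses in a highway slab. -/
def T_PUB : Prop := ∀ q cs : ℝ, 0 < q → q < 1 → 0 < cs → I_S q cs → ∀ ε : ℝ, 0 < ε →
  ∃ H₀ : ℝ, 0 < H₀ ∧ ∀ (A : ℤ) (K B H Y c : ℝ), H₀ ≤ H → 1 ≤ A → 256 * (A : ℝ) ≤ H →
  (9:ℝ) / 10 ≤ c → c ≤ 2 → ∃ k₀ : ℕ, 1 ≤ k₀ ∧ ∀ (k : ℕ) (X s t : ℤ), k₀ ≤ k →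
  t - s = 8 * 64 ^ (k - 1) →
  PE q {ω | ∃ g, IsPath s t g ∧ Stay (16 * A * 16 ^ k) s t g ∧ c * H * 4 ^ k ≤ Exc q ω s t g} ≤
    ENNReal.ofReal (10000 * (16 * A) ^ 2 * Real.exp (-((cs - ε) * (2 * c * H) ^ ((3:ℝ)/2))))

/-- BK inequality for two disjoint sets of sites with large total weight. -/
def T_BK : Prop := ∀ (q : ℝ) (F : Finset (Finset Site × ℝ)), 0 < q → q < 1 →
  PE q {ω | ∃ a ∈ F, ∃ b ∈ F, Disjoint a.1 b.1 ∧ a.2 ≤ ∑ x ∈ a.1, (ω x : ℝ) ∧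
      b.2 ≤ ∑ x ∈ b.1, (ω x : ℝ)} ≤
    PE q {ω | ∃ a ∈ F, a.2 ≤ ∑ x ∈ a.1, (ω x : ℝ)} ^ 2

/-- BK for two disjoint paths. -/
def T_PND : Prop := ∀ (D : Dat) (s t : ℤ) (c : ℝ), 0 < D.q → D.q < 1 → s ≤ t →
  PE D.q {ω | ¬ ND D ω s t c} ≤
    PE D.q {ω | ∃ g, IsPath s t g ∧ Stay (16 * D.A * D.w) s t g ∧
      c * D.H * D.f ≤ Exc D.q ω s t g} ^ 2

/-- Choice of the constants. -/
def T_CHO : Prop := ∀ q cs C₂ ε' K B C c : ℝ, 0 < q → q < 1 → 0 < cs → 0 < C₂ → 0 < ε' → 0 ≤ K →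
  0 ≤ B → 0 < C → 0 < c → ∀ H₀ : ℝ, ∃ (A : ℤ) (H Y : ℝ), H₀ ≤ H ∧ 1 ≤ H ∧ 40 ≤ A ∧ Even A ∧ B ≤ A ∧
  256 * (A : ℝ) ≤ H ∧ 70 * sg q + 3 * K * (1 + B) + sg q * B ^ 2 ≤ H / 1000 ∧
  K * (1 + 16 * A) ≤ H / 1000 ∧ H ≤ Y ∧ 4 * Y ≤ sg q * A ^ 2 ∧ C₂ * H ^ ((3:ℝ)/2) ≤ Y ∧
  (let p := Real.exp (-((cs + cs / 10000) * (2 * H) ^ ((3:ℝ)/2))) / 2
   let U := fun x : ℝ => 10000 * (16 * A) ^ 2 *
      Real.exp (-((cs - cs / 10000) * (2 * x * H) ^ ((3:ℝ)/2)))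
   U (1001 / 1000) ≤ ε' * p ∧ (U (974 / 1000)) ^ 2 ≤ ε' * p ∧
   C * A ^ 2 * Real.exp (-(c * H)) ≤ ε' ∧ C * A * Real.exp (-(c * Y)) ≤ ε' * p ^ 2)

/-- The strength of the two highway slabs has the same law. -/
def T_PH2 : Prop := ∀ D : Dat, Even D.n → PE D.q {ω | HWs D ω (2 * D.n) (3 * D.n) 1} = pH D

/-- Summary of the probability estimates. -/
def T_PRB : Prop := ∀ q cs : ℝ, 0 < q → q < 1 → 0 < cs → I_A q → I_C q → I_B q → I_S q cs →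
  I_L q cs → ∀ K B ε' : ℝ, 0 ≤ K → 0 ≤ B → 0 < ε' → ∃ (A : ℤ) (H Y : ℝ) (p₀ : ℝ≥0∞) (k₀ : ℕ),
  40 ≤ A ∧ 0 < p₀ ∧ 1 ≤ k₀ ∧ 1 ≤ H ∧ ∀ (k : ℕ) (X : ℤ), k₀ ≤ k → 16 * A * 16 ^ k ≤ X →
  X + A * 16 ^ k ≤ 32 * 64 ^ k →
  let D := dat q k A K B H Y X
  D.Ok ∧ p₀ ≤ pH D ∧ PE q {out | ¬ FC D out} ≤ ENNReal.ofReal ε' ∧ PE q {ω | ¬ LO D ω} ≤ 1 / 100 ∧
  PE q {ω | ¬ CA D ω} ≤ pH D ^ 2 / 100 ∧
  PE q {ω | T ω (-(4 * D.n), 0) (4 * D.n, 0) < mu q * (8 * D.n) - D.Y * D.f} ≤ pH D ^ 2 / 100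

/-! ## The insertion lemma -/

/-- INS, one environment. -/
def T_IN1 : Prop := ∀ (D : Dat) (out : Env) (o e : Site), D.Ok → Ends D o e → FC D out →
  RF D out o e → PE D.q {ω | ¬ LO D ω} ≤ 1 / 100 →
  pH D ^ 2 / 2 ≤ Pin D out (fun ω => Ev D ω ∧ RR D ω o e)

/-- Palm form: with conditional probability at least `pH ^ 2 / 2` the leftmost geodesic passes
through the box at time `0`. -/
def T_PAL : Prop := ∀ (D : Dat) (out : Env) (o e : Site), D.Ok → Ends D o e → Good D out o e →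
  PE D.q {ω | ¬ LO D ω} ≤ 1 / 100 →
  pH D ^ 2 / 2 ≤ Pin D out (fun ω => |Lam ω o e 0| < D.A * D.w)

/-- Variance bound for the highway functional: the highways survive a small noise. -/
def T_ES : Prop := ∀ q : ℝ, 0 < q → q < 1 → ∃ C : ℝ, 0 < C ∧ ∀ D : Dat, D.q = q → D.Ok →
  ∀ (s t : ℤ) (r : ℝ) (ρ : Site → ℝ), s ≤ t → t - s ≤ D.n → 0 ≤ r → (∀ x, 0 ≤ ρ x ∧ ρ x ≤ r) →
  PN q ρ {E | HWs D (eA E) s t 1 ∧ ¬ HWs D (eB E) s t (999 / 1000)} ≤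
    ENNReal.ofReal (C * r * D.n / (D.H * D.f) ^ 2)

/-- INS, two environments with noise at most `r` in the box. -/
def T_IN2 : Prop := ∀ (D : Dat) (out out' : Env) (o e : Site) (C r : ℝ) (ρ : Site → ℝ), D.Ok →
  Ends D o e → FC D out → RF D out o e → FC D out' → RF D out' o e →
  PE D.q {ω | ¬ LO D ω} ≤ 1 / 100 → (∀ x, 0 ≤ ρ x ∧ ρ x ≤ r) →
  (∀ (s t : ℤ), s ≤ t → t - s ≤ D.n →
    PN D.q ρ {E | HWs D (eA E) s t 1 ∧ ¬ HWs D (eB E) s t (999 / 1000)} ≤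
      ENNReal.ofReal (C * r * D.n / (D.H * D.f) ^ 2)) →
  ENNReal.ofReal (C * r * D.n / (D.H * D.f) ^ 2) ≤ pH D ^ 2 / 100 →
  pH D ^ 2 / 2 ≤ PN D.q ρ {E |
    (Ev D (splice (Bx D) (eA E) out) ∧ RR D (splice (Bx D) (eA E) out) o e) ∧
    (Ev D (splice (Bx D) (eB E) out') ∧ RR D (splice (Bx D) (eB E) out') o e)}

/-- The local geodesic stays in the box with large probability. -/
def T_GST : Prop := ∀ (D : Dat) (ω : Env), D.Ok → CA D ω →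
  mu D.q * (8 * D.n) - D.Y * D.f ≤ T ω (-(4 * D.n), 0) (4 * D.n, 0) →
  ∀ r, -(4 * D.n) ≤ r → r ≤ 4 * D.n → |Lam ω (-(4 * D.n), 0) (4 * D.n, 0) r| < D.A * D.w

/-- Stability input (Part E7) for the point-to-point geodesic of the box. -/
def I_ST (q : ℝ) : Prop := ∀ η : ℝ, 0 < η → ∃ κ : ℝ, 0 < κ ∧ κ ≤ 1 ∧ ∃ k₀ : ℕ, 1 ≤ k₀ ∧
  ∀ (k : ℕ) (r : ℝ), k₀ ≤ k → 0 ≤ r → r ≤ κ * (1 / 4) ^ k →
  ∑ j ∈ Finset.Ioc (-(16 * 64 ^ (k - 1) : ℤ)) (16 * 64 ^ (k - 1)),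
    (PN q (fun _ => r)).real {E |
      Lam (eA E) (-(32 * 64 ^ (k - 1)), 0) (32 * 64 ^ (k - 1), 0) j ≠
      Lam (eB E) (-(32 * 64 ^ (k - 1)), 0) (32 * 64 ^ (k - 1), 0) j} ≤ η * 64 ^ k

/-- OVERLAP: the geodesics of two environments which are good outside the box and have noise
at most `κ 4^{-k}` in the box have a common part of length `≥ c 64^k` in the box. -/
def T_OVL : Prop := ∀ q cs : ℝ, 0 < q → q < 1 → 0 < cs → I_A q → I_C q → I_B q → I_S q cs →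
  I_L q cs → I_ST q → ∀ K B ε' : ℝ, 0 ≤ K → 0 ≤ B → 0 < ε' →
  ∃ (A : ℤ) (H Y κ c₁ : ℝ) (p₀ : ℝ≥0∞) (k₀ : ℕ),
  40 ≤ A ∧ 0 < p₀ ∧ 1 ≤ k₀ ∧ 0 < κ ∧ κ ≤ 1 ∧ 0 < c₁ ∧ ∀ (k : ℕ) (X : ℤ), k₀ ≤ k →
  16 * A * 16 ^ k ≤ X → X + A * 16 ^ k ≤ 32 * 64 ^ k →
  let D := dat q k A K B H Y X
  D.Ok ∧ PE q {out | ¬ FC D out} ≤ ENNReal.ofReal ε' ∧
  (∀ (out : Env) (o e : Site), Ends D o e → Good D out o e →
    p₀ ≤ Pin D out (fun ω => Ev D ω ∧ RR D ω o e) ∧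
    p₀ ≤ Pin D out (fun ω => |Lam ω o e 0| < D.A * D.w)) ∧
  ∀ (out out' : Env) (o e : Site) (r : ℝ), Ends D o e → Good D out o e → Good D out' o e →
    0 ≤ r → r ≤ κ * (1 / 4) ^ k →
    c₁ * 64 ^ k ≤ ∑ j ∈ Finset.Ioc (-(2 * D.n)) (2 * D.n),
      (PN q (fun _ => r)).real {E |
        |Lam (splice (Bx D) (eA E) out) o e j| < D.A * D.w ∧
        Lam (splice (Bx D) (eA E) out) o e j = Lam (splice (Bx D) (eB E) out') o e j}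

end Pool.Agent.H95.INS
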