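import Pool.Agent.H77.INS.OVL

/-!
# The insertion lemma: overlap with the lower bound of the probability of a highway
-/

set_option autoImplicit false

open MeasureTheory ProbabilityTheory
open scoped ENNReal

namespace Pool.Agent.H95.INS

open Pool.Agent.H99.NS Pool.Agent.H22.LPP
open Pool.Agent.H97.NF (PEnv eA eB PN)

/-- OVERLAP with `1 ≤ H` and `p₀ ≤ pH D`. -/
def T_OVL2 : Prop := ∀ q cs : ℝ, 0 < q → q < 1 → 0 < cs → I_A q → I_C q → I_B q → I_S q cs →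
  I_L q cs → I_ST q → ∀ K B ε' : ℝ, 0 ≤ K → 0 ≤ B → 0 < ε' →
  ∃ (A : ℤ) (H Y κ c₁ : ℝ) (p₀ : ℝ≥0∞) (k₀ : ℕ),
  40 ≤ A ∧ 0 < p₀ ∧ 1 ≤ k₀ ∧ 0 < κ ∧ κ ≤ 1 ∧ 0 < c₁ ∧ 1 ≤ H ∧ ∀ (k : ℕ) (X : ℤ), k₀ ≤ k →
  16 * A * 16 ^ k ≤ X → X + A * 16 ^ k ≤ 32 * 64 ^ k →
  let D := dat q k A K B H Y X
  D.Ok ∧ PE q {out | ¬ FC D out} ≤ ENNReal.ofReal ε' ∧ p₀ ≤ pH D ∧
  (∀ (out : Env) (o e : Site), Ends D o e → Good D out o e →
    p₀ ≤ Pin D out (fun ω => Ev D ω ∧ RR D ω o e) ∧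
    p₀ ≤ Pin D out (fun ω => |Lam ω o e 0| < D.A * D.w)) ∧
  ∀ (out out' : Env) (o e : Site) (r : ℝ), Ends D o e → Good D out o e → Good D out' o e →
    0 ≤ r → r ≤ κ * (1 / 4) ^ k →
    c₁ * 64 ^ k ≤ ∑ j ∈ Finset.Ioc (-(2 * D.n)) (2 * D.n),
      (PN q (fun _ => r)).real {E |
        |Lam (splice (Bx D) (eA E) out) o e j| < D.A * D.w ∧
        Lam (splice (Bx D) (eA E) out) o e j = Lam (splice (Bx D) (eB E) out') o e j}

open Pool.Agent.H77.INS Pool.Agent.H77.INS.OVL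

theorem pf_OVL2 (h_DET : T_DET) (h_GIN : T_GIN) (h_PRB : T_PRB) (h_IN1 : T_IN1) (h_PAL : T_PAL)
    (h_ES : T_ES) (h_IN2 : T_IN2) (h_GST : T_GST) (h_LAM : B_LAM) : T_OVL2 := by
  classical
  intro q cs hq0 hq1 hcs hA hC hB hS hL hST K B ε' hK hB0 hε'
  obtain ⟨A, H, Y, p₁, k₁, hA40, hp₁, hk₁, hH1, hPRB⟩ :=
    h_PRB q cs hq0 hq1 hcs hA hC hB hS hL K B ε' hK hB0 hε'
  obtain ⟨C, hC0, hES⟩ := h_ES q hq0 hq1
  set p2 : ℝ≥0∞ := min p₁ 1 with hp2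
  have hp2pos : 0 < p2 := lt_min hp₁ one_pos
  have hp2top : p2 ≠ ∞ := ne_top_of_le_ne_top ENNReal.one_ne_top (min_le_right _ _)
  set p : ℝ := p2.toReal with hp
  have hp0 : 0 < p := ENNReal.toReal_pos hp2pos.ne' hp2top
  obtain ⟨κ2, hκ2, hκ2', k₂, hk₂, hSTk⟩ := hST (p ^ 2 / 100) (by positivity)
  set κ1 : ℝ := 8 * H ^ 2 * p ^ 2 / (100 * C) with hκ1
  have hH0 : 0 < H := by linarith
  have hκ1pos : 0 < κ1 := by positivity
  refine ⟨A, H, Y, min (min κ1 κ2) 1, p ^ 2 / 5, p2 ^ 2 / 2, max k₁ k₂, hA40, ?_,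
    hk₁.trans (le_max_left _ _), lt_min (lt_min hκ1pos hκ2) one_pos, min_le_right _ _,
    by positivity, hH1, ?_⟩
  · exact ENNReal.div_pos (pow_ne_zero 2 hp2pos.ne') (by norm_num)
  intro k X hk hX1 hX2 D
  obtain ⟨hOk, hpH, hFC, hLO, hCA, hT⟩ := hPRB k X ((le_max_left _ _).trans hk) hX1 hX2
  change D.Ok at hOk
  have hp2H : p2 ≤ pH D := (min_le_left _ _).trans hpH
  have hsq : p2 ^ 2 / 2 ≤ pH D ^ 2 / 2 := ENNReal.div_le_div_right (pow_le_pow_left' hp2H 2) 2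
  have hk1 : 1 ≤ k := hk₁.trans ((le_max_left _ _).trans hk)
  have hp21 : p2 ≤ 1 := min_le_right _ _
  have hpp : p2 ^ 2 / 2 ≤ p2 := by
    calc p2 ^ 2 / 2 ≤ p2 ^ 2 / 1 := ENNReal.div_le_div_left (by norm_num) _
      _ = p2 ^ 2 := div_one _
      _ ≤ p2 ^ 1 := pow_le_pow_right_of_le_one' hp21 (by norm_num)
      _ = p2 := pow_one _
  refine ⟨hOk, hFC, hpp.trans hp2H, ?_, ?_⟩
  · intro out o e hE hG
    exact ⟨hsq.trans (h_IN1 D out o e hOk hE hG.1 hG.2.1 hLO),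
      hsq.trans (h_PAL D out o e hOk hE hG hLO)⟩
  · intro out out' o e r hE hG hG' hr0 hr
    have hPle : pH D ≤ 1 := prob_le_one
    have hPtop : pH D ≠ ∞ := ne_top_of_le_ne_top ENNReal.one_ne_top hPle
    have hpP : p ≤ (pH D).toReal := ENNReal.toReal_mono hPtop hp2H
    have hN0 : (0 : ℝ) < 64 ^ (k - 1) := by positivity
    have h64 : (64 : ℝ) ^ k = 64 * 64 ^ (k - 1) := by
      conv_lhs => rw [show k = (k - 1) + 1 by omega]
      rw [pow_succ]; ring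
    have hDn : ((D.n : ℤ) : ℝ) = 8 * 64 ^ (k - 1) := by
      change (((8 * 64 ^ (k - 1) : ℤ)) : ℝ) = _
      push_cast
      ring
    have h4k : (0 : ℝ) < (1 / 4) ^ k := by positivity
    have hr1 : r ≤ κ1 * (1 / 4) ^ k := hr.trans
      (mul_le_mul_of_nonneg_right ((min_le_left _ _).trans (min_le_left _ _)) h4k.le)
    have hr2 : r ≤ κ2 * (1 / 4) ^ k := hr.trans
      (mul_le_mul_of_nonneg_right ((min_le_left _ _).trans (min_le_right _ _)) h4k.le)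
    -- the noise bound
    have hsmall : ENNReal.ofReal (C * r * D.n / (D.H * D.f) ^ 2) ≤ pH D ^ 2 / 100 := by
      have h1 : C * r * D.n / (D.H * D.f) ^ 2 ≤ p ^ 2 / 100 := by
        have hf : D.f = 4 ^ k := rfl
        have hHD : D.H = H := rfl
        rw [hf, hHD, hDn, div_le_iff₀ (by positivity)]
        have e1 : ((4 : ℝ) ^ k) * (1 / 4) ^ k = 1 := by
          rw [← mul_pow]; norm_num
        have e2 : (64 : ℝ) ^ k = 4 ^ k * (4 ^ k * 4 ^ k) := by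
          rw [← mul_pow, ← mul_pow]; norm_num
        have h2 : C * r * (8 * 64 ^ (k - 1)) ≤ C * (κ1 * (1 / 4) ^ k) * (8 * 64 ^ (k - 1)) := by
          have := mul_le_mul_of_nonneg_left hr1 hC0.le
          exact mul_le_mul_of_nonneg_right this (by positivity)
        refine h2.trans (le_of_eq ?_)
        have h3 : (8 : ℝ) * 64 ^ (k - 1) = 4 ^ k * (4 ^ k * 4 ^ k) / 8 := by
          rw [← e2, h64]; ring
        rw [h3, hκ1]
        field_simp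
        have e3 : (4 : ℝ) ^ k * (4 ^ k * 4 ^ k) * (1 / 4) ^ k = 4 ^ k * 4 ^ k := by
          calc (4 : ℝ) ^ k * (4 ^ k * 4 ^ k) * (1 / 4) ^ k
              = (4 ^ k * (1 / 4) ^ k) * (4 ^ k * 4 ^ k) := by ring
            _ = 4 ^ k * 4 ^ k := by rw [e1, one_mul]
        nlinarith [e1, e3]
      refine (ENNReal.ofReal_le_ofReal h1).trans ?_
      have h5 : ENNReal.ofReal (p ^ 2 / 100) = p2 ^ 2 / 100 := by
        rw [ENNReal.ofReal_div_of_pos (by norm_num), ENNReal.ofReal_pow hp0.le,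
          hp, ENNReal.ofReal_toReal hp2top]
        norm_num
      rw [h5]
      exact ENNReal.div_le_div_right (pow_le_pow_left' hp2H 2) 100
    have hZ := h_IN2 D out out' o e C r (fun _ => r) hOk hE hG.1 hG.2.1 hG'.1 hG'.2.1 hLO
      (fun _ => ⟨hr0, le_rfl⟩)
      (fun s t hst hts => hES D rfl hOk s t r (fun _ => r) hst hts hr0 fun _ => ⟨hr0, le_rfl⟩)
      hsmall
    have hmain := prob_part h_DET h_GIN h_GST h_LAM D hOk (fun _ => r) out out' o e hE hG hG'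
      hCA hT hZ
    have hst := hSTk k r ((le_max_right _ _).trans hk) hr0 hr2
    have e2n : (16 * 64 ^ (k - 1) : ℤ) = 2 * D.n := by
      change _ = 2 * (8 * 64 ^ (k - 1) : ℤ); ring
    have e4n : (32 * 64 ^ (k - 1) : ℤ) = 4 * D.n := by
      change _ = 4 * (8 * 64 ^ (k - 1) : ℤ); ring
    rw [e2n, e4n] at hst
    have h6 : ((4 * D.n : ℤ) : ℝ) * (46 / 100 * (pH D).toReal ^ 2) ≤
      (∑ j ∈ Finset.Ioc (-(2 * D.n)) (2 * D.n), (PN q (fun _ => r)).real {E |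
        |Lam (splice (Bx D) (eA E) out) o e j| < D.A * D.w ∧
        Lam (splice (Bx D) (eA E) out) o e j = Lam (splice (Bx D) (eB E) out') o e j}) +
        p ^ 2 / 100 * 64 ^ k := hmain.trans (add_le_add le_rfl hst)
    have h7 : (46 / 100 * p ^ 2) ≤ 46 / 100 * (pH D).toReal ^ 2 := by
      have := pow_le_pow_left₀ hp0.le hpP 2
      linarith
    have h8 : ((4 * D.n : ℤ) : ℝ) = 64 ^ k / 2 := by
      push_cast
      rw [hDn, h64]
      ring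
    rw [h8] at h6
    have h9 : (64 : ℝ) ^ k / 2 * (46 / 100 * p ^ 2) ≤ 64 ^ k / 2 * (46 / 100 * (pH D).toReal ^ 2) :=
      mul_le_mul_of_nonneg_left h7 (by positivity)
    have h10 : 0 ≤ p ^ 2 * (64 : ℝ) ^ k := by positivity
    linarith


end Pool.Agent.H95.INS
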