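import Pool.Agent.H95.INS.Prb
import Pool.Agent.H95.INS.Ovl2
import Pool.Agent.H12.INS.BK
import Pool.Agent.H12.INS.CHO
import Pool.Agent.H12.INS.ES
import Pool.Agent.H13.INS.IB
import Pool.Agent.H18.INS.IS
import Pool.Agent.H97.NF.All

/-!
# The insertion lemma: final form

All the inputs are those of Parts A, B and E7. No hypothesis is left in Part C itself.
-/

namespace Pool.Agent.H95.INS

open Pool.Agent.H22.LPP
open scoped ENNReal

theorem t_BK : T_BK := Pool.Agent.H12.INS.BK.pf_BK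
theorem t_CHO : T_CHO := Pool.Agent.H12.INS.pf_CHO
theorem t_ES : T_ES := Pool.Agent.H12.INS.ES.pf_ES Pool.Agent.H97.NF.a_NIC
  Pool.Agent.H97.NF.a_INT Pool.Agent.H97.NF.a_FE2 Pool.Agent.H97.NF.a_LOC Pool.Agent.H97.NF.a_GMO
theorem t_IB : T_IB := pf_IB
theorem t_IL : T_IL := pf_IL
theorem t_IS : T_IS := Pool.Agent.H18.INS.pf_IS

theorem f_PRB : T_PRB := t_PRB t_BK t_CHO
theorem f_OVL (h : B_LAM) : T_OVL := t_OVL t_BK t_CHO t_ES h
theorem f_OVL2 (h : B_LAM) : T_OVL2 :=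
  pf_OVL2 t_DET t_GIN f_PRB t_IN1 (t_PAL h) t_ES t_IN2 (t_GST h) h

end Pool.Agent.H95.INS
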