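import Pool.Agent.H22.LPP.Prob

/-!
# The insertion lemma (Part C of MP_57ddd5_pr): definitions

The center of the box is the origin (use `shiftE` for other centers), the time scale is
`l = 8 n`, the space scale `w` and the weight scale `f` with `w ^ 2 = 8 n f`.
-/

open MeasureTheory ProbabilityTheory
open scoped ENNReal

namespace Pool.Agent.H95.INS

open Pool.Agent.H99.NS Pool.Agent.H22.LPP

/-- Excess over the parabola of the path `g` on `(s,t]`. -/
noncomputable def Exc (q : ℝ) (ω : Env) (s t : ℤ) (g : ℤ → ℤ) : ℝ :=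
  wt ω s t g - par q (s, g s) (t, g t)

/-- The path stays in the open strip of half width `X` on `[s,t]`. -/
def Stay (X s t : ℤ) (g : ℤ → ℤ) : Prop := ∀ r, s ≤ r → r ≤ t → |g r| < X

/-- Soft parabola. -/
noncomputable def sp (q dl : ℝ) (s t : ℤ) (g : ℤ → ℤ) : ℝ :=
  mu q * ((t - s : ℤ) : ℝ) - sg q / 2 * ((g t - g s : ℤ) : ℝ) ^ 2 / (((t - s : ℤ) : ℝ) + dl)

/-- Scale and constants of the insertion lemma. -/
structure Dat where
  /-- parameter of the geometric law -/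
  q : ℝ
  /-- an eighth of the time scale -/
  n : ℤ
  /-- space scale -/
  w : ℤ
  /-- weight scale -/
  f : ℝ
  /-- half width of the box in units `w` -/
  A : ℤ
  /-- regularity of the old environment -/
  K : ℝ
  /-- bound for the positions of the old geodesic at distance `32 l` -/
  B : ℝ
  /-- strength of the highways -/
  H : ℝ
  /-- crude upper bound of the new environment -/
  Y : ℝ
  /-- lateral cut-off -/
  X : ℤ

/-- Admissible data. -/
structure Dat.Ok (D : Dat) : Prop where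
  q0 : 0 < D.q
  q1 : D.q < 1
  n1 : 1 ≤ D.n
  ne : Even D.n
  w1 : 1 ≤ D.w
  f0 : 0 < D.f
  sc : (D.w : ℝ) ^ 2 = 8 * D.n * D.f
  A2 : 2 ≤ D.A
  Ae : Even D.A
  K0 : 0 ≤ D.K
  B0 : 0 ≤ D.B
  BA : D.B ≤ D.A
  c1 : 70 * sg D.q + 3 * D.K * (1 + D.B) + sg D.q * D.B ^ 2 ≤ D.H / 1000
  c2 : D.K * (1 + 16 * D.A) ≤ D.H / 1000
  c3 : D.H ≤ D.Y
  c4 : 4 * D.Y ≤ sg D.q * D.A ^ 2
  X1 : 16 * D.A * D.w ≤ D.X
  X2 : D.X + D.A * D.w ≤ 256 * D.n

/-- The box. -/
def Bx (D : Dat) : Set Site := {x | -(4 * D.n) < x.1 ∧ x.1 ≤ 4 * D.n ∧ |x.2| < D.A * D.w}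

/-- The two environments agree outside the box. -/
def Agree (D : Dat) (ω ω' : Env) : Prop := ∀ x, x ∉ Bx D → ω x = ω' x

/-! ## The new environment -/

/-- All paths of the wide strip on `[s,t]` have excess at most `c H f`. -/
def UB (D : Dat) (ω : Env) (s t : ℤ) (c : ℝ) : Prop :=
  ∀ g, IsPath s t g → Stay (16 * D.A * D.w) s t g → Exc D.q ω s t g ≤ c * D.H * D.f

/-- Any two paths of the wide strip on `[s,t]` with excess at least `c H f` meet. -/
def ND (D : Dat) (ω : Env) (s t : ℤ) (c : ℝ) : Prop :=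
  ∀ g g', IsPath s t g → IsPath s t g' → Stay (16 * D.A * D.w) s t g →
    Stay (16 * D.A * D.w) s t g' → c * D.H * D.f ≤ Exc D.q ω s t g →
    c * D.H * D.f ≤ Exc D.q ω s t g' → ∃ r, s < r ∧ r ≤ t ∧ g r = g' r

/-- Crude upper bound for all paths of the wide strip. -/
def CU (D : Dat) (ω : Env) : Prop :=
  ∀ s t g, -(4 * D.n) ≤ s → s ≤ t → t ≤ 4 * D.n → IsPath s t g →
    Stay (16 * D.A * D.w) s t g → wt ω s t g ≤ sp D.q (8 * D.n / 50) s t g + D.Y * D.f

/-- `g` is an admissible highway on `[s,t]`. -/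
def HPath (D : Dat) (s t : ℤ) (g : ℤ → ℤ) : Prop :=
  IsPath s t g ∧ Stay (D.A / 2 * D.w) s t g ∧ |g s| ≤ D.w ∧ |g t| ≤ D.w ∧ Even (s + g s)

/-- There is a highway of strength `c H f` on `[s,t]`. -/
def HWs (D : Dat) (ω : Env) (s t : ℤ) (c : ℝ) : Prop :=
  ∃ h, HPath D s t h ∧ c * D.H * D.f ≤ Exc D.q ω s t h

/-- Connector on `[s,t]` from `x` to `y`. -/
def CN (D : Dat) (ω : Env) (s t x y : ℤ) : Prop :=
  ∃ g, IsPath s t g ∧ g s = x ∧ g t = y ∧ Stay (D.A / 2 * D.w) s t g ∧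
    -(D.H * D.f / 1000) ≤ Exc D.q ω s t g

/-- All connectors exist. -/
structure LO (D : Dat) (ω : Env) : Prop where
  l1 : ∀ y, |y| ≤ D.w → Even (3 * D.n + y) → CN D ω (-(4 * D.n)) (-(3 * D.n)) 0 y
  l2 : ∀ y y', |y| ≤ D.w → |y'| ≤ D.w → Even (2 * D.n + y) → Even (2 * D.n + y') →
    CN D ω (-(2 * D.n)) (2 * D.n) y y'
  l3 : ∀ y, |y| ≤ D.w → Even (3 * D.n + y) → CN D ω (3 * D.n) (4 * D.n) y 0

/-- No large excess outside the highway slabs. -/
structure Sm (D : Dat) (ω : Env) : Prop where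
  s1 : UB D ω (-(4 * D.n)) (-(3 * D.n)) (1 / 1000)
  s2 : UB D ω (-(2 * D.n)) (2 * D.n) (1 / 1000)
  s3 : UB D ω (3 * D.n) (4 * D.n) (1 / 1000)

/-- The event `G` (without the global condition `RR`). -/
structure Ev (D : Dat) (ω : Env) : Prop where
  u1 : UB D ω (-(3 * D.n)) (-(2 * D.n)) (1001 / 1000)
  u2 : UB D ω (2 * D.n) (3 * D.n) (1001 / 1000)
  sm : Sm D ω
  d1 : ND D ω (-(3 * D.n)) (-(2 * D.n)) (974 / 1000)
  d2 : ND D ω (2 * D.n) (3 * D.n) (974 / 1000)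
  cu : CU D ω
  h1 : HWs D ω (-(3 * D.n)) (-(2 * D.n)) (999 / 1000)
  h2 : HWs D ω (2 * D.n) (3 * D.n) (999 / 1000)
  lo : LO D ω

/-- `g` is a path from `o` to `e` of weight at least `T - c`. -/
def Near (ω : Env) (o e : Site) (c : ℝ) (g : ℤ → ℤ) : Prop :=
  Conn o e g ∧ T ω o e - c ≤ wt ω o.1 e.1 g

/-- Global condition: near optimal paths touching the box are not far away at the levels
`-4n` and `4n`. -/
def RR (D : Dat) (ω : Env) (o e : Site) : Prop :=
  ∀ g, Near ω o e (14 * D.H * D.f / 1000) g →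
    (∃ r, -(4 * D.n) ≤ r ∧ r ≤ 4 * D.n ∧ |g r| < D.A * D.w) →
    |g (-(4 * D.n))| ≤ D.X ∧ |g (4 * D.n)| ≤ D.X

/-! ## The old environment -/

/-- Upper bounds, soft parabola. -/
def O1 (D : Dat) (ω : Env) : Prop :=
  ∀ s t g, -(256 * D.n) ≤ s → s ≤ t → t ≤ 256 * D.n → IsPath s t g → |g s| ≤ D.X →
    |g t| ≤ D.X → wt ω s t g ≤ sp D.q (8 * D.n / 50) s t g +
      D.K * D.f * (1 + max |(g s : ℝ)| |(g t : ℝ)| / D.w)

/-- Lower bound between two levels. -/
def LBd (D : Dat) (ω : Env) (s t : ℤ) : Prop :=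
  ∀ x y : ℤ, |x| ≤ D.X → |y| ≤ D.X → Reach (s, x) (t, y) →
    par D.q (s, x) (t, y) - D.K * D.f * (1 + max |(x : ℝ)| |(y : ℝ)| / D.w) ≤ T ω (s, x) (t, y)

/-- Lower bounds. -/
structure O2 (D : Dat) (ω : Env) : Prop where
  a : LBd D ω (-(256 * D.n)) (4 * D.n)
  b : LBd D ω (-(4 * D.n)) (256 * D.n)
  c : LBd D ω (-(4 * D.n)) (4 * D.n)
  d : LBd D ω (-(256 * D.n)) (-(4 * D.n))
  e : LBd D ω (4 * D.n) (256 * D.n)

/-- The old near optimal path. -/
def O3 (D : Dat) (ω : Env) (o e : Site) (γ : ℤ → ℤ) : Prop :=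
  Near ω o e (D.H * D.f / 1000) γ ∧ |(γ (-(256 * D.n)) : ℝ)| ≤ D.B * D.w ∧
    |(γ (256 * D.n) : ℝ)| ≤ D.B * D.w

/-- The end points are far away and of even parity. -/
structure Ends (D : Dat) (o e : Site) : Prop where
  o1 : o.1 ≤ -(256 * D.n)
  e1 : 256 * D.n ≤ e.1
  oe : Even (o.1 + o.2)
  re : Reach o e

/-! ## Leftmost geodesics -/

/-- `g` is a geodesic. -/
def Geo (ω : Env) (u v : Site) (g : ℤ → ℤ) : Prop := Conn u v g ∧ wt ω u.1 v.1 g = T ω u v

/-- `g` is the leftmost geodesic. -/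
def LGeo (ω : Env) (u v : Site) (g : ℤ → ℤ) : Prop :=
  Geo ω u v g ∧ ∀ g', Geo ω u v g' → ∀ r, u.1 ≤ r → r ≤ v.1 → g r ≤ g' r

/-- The weight guaranteed on `[-4n,4n]` by the two highways. -/
noncomputable def Mlow (D : Dat) : ℝ :=
  mu D.q * (8 * D.n) + (1995 / 1000) * D.H * D.f - 44 * sg D.q * D.f

/-! ## Probability -/

/-- Probability of a highway of full strength. -/
noncomputable def pH (D : Dat) : ℝ≥0∞ := PE D.q {ω | HWs D ω (-(3 * D.n)) (-(2 * D.n)) 1}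

/-- Probability of an event for the environment which is resampled in the box, given the
outside `out`. -/
noncomputable def Pin (D : Dat) (out : Env) (E : Env → Prop) : ℝ≥0∞ :=
  PE D.q {ω | E (splice (Bx D) ω out)}

/-- Fubini condition. -/
structure FC (D : Dat) (out : Env) : Prop where
  u1 : Pin D out (fun ω => ¬ UB D ω (-(3 * D.n)) (-(2 * D.n)) (1001 / 1000)) ≤ pH D / 100
  u2 : Pin D out (fun ω => ¬ UB D ω (2 * D.n) (3 * D.n) (1001 / 1000)) ≤ pH D / 100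
  d1 : Pin D out (fun ω => ¬ ND D ω (-(3 * D.n)) (-(2 * D.n)) (974 / 1000)) ≤ pH D / 100
  d2 : Pin D out (fun ω => ¬ ND D ω (2 * D.n) (3 * D.n) (974 / 1000)) ≤ pH D / 100
  sm : Pin D out (fun ω => ¬ Sm D ω) ≤ 1 / 100
  cu : Pin D out (fun ω => ¬ CU D ω) ≤ pH D ^ 2 / 100

/-- Global Fubini condition. -/
def RF (D : Dat) (out : Env) (o e : Site) : Prop :=
  Pin D out (fun ω => ¬ RR D ω o e) ≤ pH D ^ 2 / 100

/-! ## Good outside environments -/

/-- The outside `out` is good: Fubini conditions, and some environment of the box makes the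
whole environment regular with a near optimal path at distance at most `B w` at the levels
`-256 n` and `256 n`. It depends only on the sites outside the box. -/
def Good (D : Dat) (out : Env) (o e : Site) : Prop :=
  FC D out ∧ RF D out o e ∧ ∃ (ω₀ : Env) (γ : ℤ → ℤ), O1 D (splice (Bx D) ω₀ out) ∧
    O2 D (splice (Bx D) ω₀ out) ∧ O3 D (splice (Bx D) ω₀ out) o e γ

/-- Data of the scale `k` (`l = 64 ^ k`, `w = 16 ^ k`, `f = 4 ^ k`, `k ≥ 1`). -/
noncomputable def dat (q : ℝ) (k : ℕ) (A : ℤ) (K B H Y : ℝ) (X : ℤ) : Dat where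
  q := q
  n := 8 * 64 ^ (k - 1)
  w := 16 ^ k
  f := 4 ^ k
  A := A
  K := K
  B := B
  H := H
  Y := Y
  X := X

/-- The box with center `z`. -/
def BxAt (D : Dat) (z : Site) : Set Site := {x | x - z ∈ Bx D}

/-- Goodness at the center `z` (shifted environment and end points). -/
def GoodAt (D : Dat) (z : Site) (out : Env) (o e : Site) : Prop :=
  Good D (shiftE z out) (o - z) (e - z)

end Pool.Agent.H95.INS
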