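import Pool.Agent.H34.INS.Small
import Pool.Agent.H34.INS.S45
import Pool.Agent.H36.INS.INI
import Pool.Agent.H36.INS.INN
import Pool.Agent.H36.INS.LEX
import Pool.Agent.H36.INS.XY
import Pool.Agent.H64.INS.DET
import Pool.Agent.H78.INS.W
import Pool.Agent.H78.INS.FNP
import Pool.Agent.H78.INS.S1
import Pool.Agent.H78.INS.S3
import Pool.Agent.H78.INS.GIN

/-!
# The deterministic insertion lemma: assembly
-/

namespace Pool.Agent.H95.INS

theorem t_PSA : T_PSA := Pool.Agent.H34.INS.pf_PSA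
theorem t_NU3 : T_NU3 := Pool.Agent.H34.INS.pf_NU3
theorem t_FIV : T_FIV := Pool.Agent.H34.INS.pf_FIV t_PSA
theorem t_AVO : T_AVO := Pool.Agent.H34.INS.pf_AVO
theorem t_GEO : T_GEO := Pool.Agent.H34.INS.pf_GEO
theorem t_W : T_W := pf_W
theorem t_INI : T_INI := Pool.Agent.H36.INS.INI.pf_INI
theorem t_FNP : T_FNP := pf_FNP
theorem t_XY : T_XY := Pool.Agent.H36.INS.XY.pf_XY
theorem t_S3 : T_S3 := pf_S3 t_W t_INI t_FNP t_XY t_NU3
theorem t_INN : T_INN := Pool.Agent.H36.INS.pf_INN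
theorem t_S1 : T_S1 := pf_S1
theorem t_LEX : T_LEX := Pool.Agent.H36.INS.pf_LEX
theorem t_S5 : T_S5 := Pool.Agent.H34.INS.pf_S5 t_S3 t_AVO t_INN t_S1 t_XY t_FIV
theorem t_S4 : T_S4 := Pool.Agent.H34.INS.pf_S4 t_S3 t_AVO t_S5 t_XY t_FIV
theorem t_DET : T_DET := Pool.Agent.H64.INS.pf_DET t_S5 t_S4 t_INN t_S1 t_GEO
theorem t_GIN : T_GIN := pf_GIN

end Pool.Agent.H95.INS
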