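import Pool.Agent.H95.INS.Det
import Pool.Agent.H17.INS.FIM
import Pool.Agent.H17.INS.DER
import Pool.Agent.H17.INS.PH2
import Pool.Agent.H30.INS.MAR
import Pool.Agent.H30.INS.PAL
import Pool.Agent.H30.INS.PUB
import Pool.Agent.H33.INS.IA
import Pool.Agent.H33.INS.IC
import Pool.Agent.H33.INS.PHL
import Pool.Agent.H35.INS.PRB
import Pool.Agent.H48.INS.DEP
import Pool.Agent.H48.INS.IN1
import Pool.Agent.H56.INS.CNF
import Pool.Agent.H56.INS.PCU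
import Pool.Agent.H56.INS.GST
import Pool.Agent.H77.INS.IN2
import Pool.Agent.H77.INS.OVL
import Pool.Agent.H77.INS.PND

/-!
# The probabilistic insertion lemma: assembly
-/

namespace Pool.Agent.H95.INS

open Pool.Agent.H22.LPP

theorem t_FIM : T_FIM := Pool.Agent.H17.INS.pf_FIM
theorem t_DEP : T_DEP := Pool.Agent.H48.INS.pf_DEP
theorem t_DER : T_DER := Pool.Agent.H17.INS.pf_DER
theorem t_PH2 : T_PH2 := Pool.Agent.H17.INS.pf_PH2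
theorem t_MAR : T_MAR := Pool.Agent.H30.INS.pf_MAR
theorem t_PCU : T_PCU := Pool.Agent.H56.INS.pf_PCU
theorem t_PSM : T_PSM := Pool.Agent.H56.INS.pf_PSM
theorem t_CNF : T_CNF := Pool.Agent.H56.INS.pf_CNF
theorem t_CNX : T_CNX := Pool.Agent.H56.INS.pf_CNX t_CNF
theorem t_PLO : T_PLO := Pool.Agent.H56.INS.pf_PLO t_CNX t_PCU
theorem t_PHL : T_PHL := Pool.Agent.H33.INS.PHL.pf_PHL t_CNF t_PCU
theorem t_PUB : T_PUB := Pool.Agent.H30.INS.pf_PUB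
theorem t_PND (h_BK : T_BK) : T_PND := Pool.Agent.H77.INS.PND.pf_PND h_BK
theorem t_IN1 : T_IN1 := Pool.Agent.H48.INS.pf_IN1 t_FIM t_DEP t_DER t_PH2
theorem t_PAL (h : B_LAM) : T_PAL := Pool.Agent.H30.INS.pf_PAL t_DET t_IN1 h
theorem t_IN2 : T_IN2 := Pool.Agent.H77.INS.IN2.pf_IN2 t_FIM t_DEP t_DER t_PH2
theorem t_GST (h : B_LAM) : T_GST := Pool.Agent.H56.INS.pf_GST h
theorem t_PRB (h_BK : T_BK) (h_CHO : T_CHO) : T_PRB :=
  Pool.Agent.H35.INS.pf_PRB t_FIM t_DEP t_MAR t_PCU t_PSM t_PLO t_PHL t_PUB (t_PND h_BK) h_CHO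
theorem t_OVL (h_BK : T_BK) (h_CHO : T_CHO) (h_ES : T_ES) (h : B_LAM) : T_OVL :=
  Pool.Agent.H77.INS.OVL.pf_OVL t_DET t_GIN (t_PRB h_BK h_CHO) t_IN1 (t_PAL h) h_ES t_IN2
    (t_GST h) h
theorem t_IA : T_IA := Pool.Agent.H33.INS.IA.pf_IA
theorem t_IC : T_IC := Pool.Agent.H33.INS.IC.pf_IC

end Pool.Agent.H95.INS
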