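import Pool.Agent.H95.INS.Defs

/-!
# The insertion lemma: targets of the deterministic part
-/

open MeasureTheory ProbabilityTheory
open scoped ENNReal

namespace Pool.Agent.H95.INS

open Pool.Agent.H99.NS Pool.Agent.H22.LPP

/-- Superadditivity of the parabola. -/
def T_PSA : Prop := ∀ (q : ℝ) (s m t x y z : ℤ), 0 < q → q < 1 → s < m → m < t →
  par q (s, x) (m, y) + par q (m, y) (t, z) ≤ par q (s, x) (t, z)

/-- Wandering paths between two points of the strip of the box. -/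
def T_W : Prop := ∀ (D : Dat) (ω ω' : Env), D.Ok → Agree D ω ω' → CU D ω → O1 D ω' →
  ∀ (s t : ℤ) (g : ℤ → ℤ), -(4 * D.n) ≤ s → s ≤ t → t ≤ 4 * D.n → IsPath s t g →
    |g s| ≤ D.A * D.w → |g t| ≤ D.A * D.w →
    wt ω s t g ≤ mu D.q * ((t - s : ℤ) : ℝ) + D.Y * D.f ∧
    ((∃ r, s ≤ r ∧ r ≤ t ∧ 16 * D.A * D.w ≤ |g r|) →
      wt ω s t g ≤ mu D.q * ((t - s : ℤ) : ℝ) - 100 * sg D.q * D.A ^ 2 * D.f)

/-- The piece of a path before the first visit to the strip of the box. -/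
def T_INI : Prop := ∀ (D : Dat) (ω ω' : Env), D.Ok → Agree D ω ω' → O1 D ω' →
  ∀ (t : ℤ) (g : ℤ → ℤ), -(4 * D.n) ≤ t → t ≤ 4 * D.n → IsPath (-(4 * D.n)) t g →
    |g (-(4 * D.n))| ≤ D.X → |g t| ≤ D.A * D.w →
    (∀ r, -(4 * D.n) ≤ r → r < t → D.A * D.w < |g r|) →
    ∀ a : ℝ, a = |(g (-(4 * D.n)) : ℝ)| / D.w →
    wt ω (-(4 * D.n)) t g ≤ mu D.q * ((t - (-(4 * D.n)) : ℤ) : ℝ) +
      2 * D.K * (1 + 16 * D.A + a) * D.f -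
      sg D.q / 2 / (51 / 50) * (max 0 (a - D.A)) ^ 2 * D.f ∧
    ((∃ r, -(4 * D.n) ≤ r ∧ r ≤ t ∧ 16 * D.A * D.w ≤ |g r|) →
      wt ω (-(4 * D.n)) t g ≤ mu D.q * ((t - (-(4 * D.n)) : ℤ) : ℝ) +
      2 * D.K * (1 + 16 * D.A + a) * D.f -
      sg D.q / 2 / (51 / 50) * (15 * D.A) ^ 2 * D.f)

/-- The piece of a path after the last visit to the strip of the box. -/
def T_FNP : Prop := ∀ (D : Dat) (ω ω' : Env), D.Ok → Agree D ω ω' → O1 D ω' →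
  ∀ (s : ℤ) (g : ℤ → ℤ), -(4 * D.n) ≤ s → s ≤ 4 * D.n → IsPath s (4 * D.n) g →
    |g (4 * D.n)| ≤ D.X → |g s| ≤ D.A * D.w →
    (∀ r, s < r → r ≤ 4 * D.n → D.A * D.w < |g r|) →
    ∀ b : ℝ, b = |(g (4 * D.n) : ℝ)| / D.w →
    wt ω s (4 * D.n) g ≤ mu D.q * ((4 * D.n - s : ℤ) : ℝ) +
      2 * D.K * (1 + 16 * D.A + b) * D.f -
      sg D.q / 2 / (51 / 50) * (max 0 (b - D.A)) ^ 2 * D.f ∧
    ((∃ r, s ≤ r ∧ r ≤ 4 * D.n ∧ 16 * D.A * D.w ≤ |g r|) →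
      wt ω s (4 * D.n) g ≤ mu D.q * ((4 * D.n - s : ℤ) : ℝ) +
      2 * D.K * (1 + 16 * D.A + b) * D.f -
      sg D.q / 2 / (51 / 50) * (15 * D.A) ^ 2 * D.f)

/-- The inequalities (Y) and (X). -/
def T_XY : Prop := ∀ (D : Dat) (ω ω' : Env) (o e : Site), D.Ok → Agree D ω ω' → Ends D o e →
  O1 D ω' → O2 D ω' → ∀ γ, O3 D ω' o e γ → ∀ g, Conn o e g → |g (-(4 * D.n))| ≤ D.X →
  |g (4 * D.n)| ≤ D.X → ∀ a b : ℝ, a = |(g (-(4 * D.n)) : ℝ)| / D.w →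
    b = |(g (4 * D.n) : ℝ)| / D.w →
    wt ω o.1 e.1 g ≤ T ω' o e + wt ω (-(4 * D.n)) (4 * D.n) g -
      par D.q (-(4 * D.n), g (-(4 * D.n))) (4 * D.n, g (4 * D.n)) +
      D.K * D.f * (1 + max a b) ∧
    wt ω o.1 e.1 g ≤ T ω' o e + wt ω (-(4 * D.n)) (4 * D.n) g - mu D.q * (8 * D.n) +
      (D.H / 1000 + D.K * (3 + 3 * D.B + a + b) +
        sg D.q / 2 * ((a + D.B) ^ 2 + (b + D.B) ^ 2) / (65 / 2)) * D.f

/-- The final inequality of Step 3. -/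
def T_NU3 : Prop := ∀ s A K B H Y x y : ℝ, 0 < s → 2 ≤ A → 0 ≤ K → 0 ≤ B → B ≤ A →
  K * (1 + 16 * A) ≤ H / 1000 → H ≤ Y → 4 * Y ≤ s * A ^ 2 → 0 ≤ x → 0 ≤ y →
  H / 1000 + 3 * Y + 7 * K * (1 + B + 18 * A + x + y) +
    s / 2 * ((x + A + B) ^ 2 + (y + A + B) ^ 2) / (65 / 2) <
  s / 2 / (51 / 50) * ((x ^ 2 + y ^ 2 + (15 * A) ^ 2) / 2)

/-- Step 3: paths which are better than the old optimum stay in the wide strip. -/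
def T_S3 : Prop := ∀ (D : Dat) (ω ω' : Env) (o e : Site), D.Ok → Agree D ω ω' → Ends D o e →
  CU D ω → O1 D ω' → O2 D ω' → ∀ γ, O3 D ω' o e γ → ∀ g, Conn o e g →
  |g (-(4 * D.n))| ≤ D.X → |g (4 * D.n)| ≤ D.X →
  (∃ r, -(4 * D.n) ≤ r ∧ r ≤ 4 * D.n ∧ |g r| < D.A * D.w) →
  T ω' o e < wt ω o.1 e.1 g → Stay (16 * D.A * D.w) (-(4 * D.n)) (4 * D.n) g

/-- A path which avoids the box is not better than the old optimum. -/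
def T_AVO : Prop := ∀ (D : Dat) (ω ω' : Env) (o e : Site), Agree D ω ω' → Reach o e →
  ∀ g, Conn o e g → T ω' o e < wt ω o.1 e.1 g →
  ∃ r, -(4 * D.n) ≤ r ∧ r ≤ 4 * D.n ∧ |g r| < D.A * D.w

/-- The explicit path through the two highways. -/
def T_INN : Prop := ∀ (D : Dat) (ω : Env), D.Ok → Ev D ω →
  ∃ m, IsPath (-(4 * D.n)) (4 * D.n) m ∧ m (-(4 * D.n)) = 0 ∧ m (4 * D.n) = 0 ∧
    Stay (D.A / 2 * D.w) (-(4 * D.n)) (4 * D.n) m ∧ Mlow D ≤ wt ω (-(4 * D.n)) (4 * D.n) m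

/-- Step 1: rerouting an old near optimal path through the box. -/
def T_S1 : Prop := ∀ (D : Dat) (ω ω' : Env) (o e : Site), D.Ok → Agree D ω ω' → Ends D o e →
  O1 D ω' → O2 D ω' → ∀ γ, O3 D ω' o e γ →
  ∀ m, IsPath (-(4 * D.n)) (4 * D.n) m → m (-(4 * D.n)) = 0 → m (4 * D.n) = 0 →
    Mlow D ≤ wt ω (-(4 * D.n)) (4 * D.n) m →
    ∃ g, Conn o e g ∧ (∀ r ≤ -(256 * D.n), g r = γ r) ∧ (∀ r, 256 * D.n ≤ r → g r = γ r) ∧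
      (∀ r, -(4 * D.n) ≤ r → r ≤ 4 * D.n → g r = m r) ∧
      T ω' o e + (1993 / 1000) * D.H * D.f ≤ wt ω o.1 e.1 g

/-- The sum of the excesses of the five pieces. -/
def T_FIV : Prop := ∀ (D : Dat) (ω : Env), D.Ok → ∀ g : ℤ → ℤ,
  wt ω (-(4 * D.n)) (4 * D.n) g - par D.q (-(4 * D.n), g (-(4 * D.n))) (4 * D.n, g (4 * D.n)) ≤
    Exc D.q ω (-(4 * D.n)) (-(3 * D.n)) g + Exc D.q ω (-(3 * D.n)) (-(2 * D.n)) g +
    Exc D.q ω (-(2 * D.n)) (2 * D.n) g + Exc D.q ω (2 * D.n) (3 * D.n) g +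
    Exc D.q ω (3 * D.n) (4 * D.n) g

/-- Step 5: upper bound for the new passage time. -/
def T_S5 : Prop := ∀ (D : Dat) (ω ω' : Env) (o e : Site), D.Ok → Agree D ω ω' → Ends D o e →
  Ev D ω → RR D ω o e → O1 D ω' → O2 D ω' → ∀ γ, O3 D ω' o e γ →
  T ω' o e + (1993 / 1000) * D.H * D.f ≤ T ω o e ∧
  T ω o e ≤ T ω' o e + (2006 / 1000) * D.H * D.f

/-- Step 4: near optimal paths use both highways. -/
def T_S4 : Prop := ∀ (D : Dat) (ω ω' : Env) (o e : Site), D.Ok → Agree D ω ω' → Ends D o e →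
  Ev D ω → RR D ω o e → O1 D ω' → O2 D ω' → ∀ γ, O3 D ω' o e γ →
  ∀ g, Near ω o e (14 * D.H * D.f / 1000) g →
    Stay (16 * D.A * D.w) (-(4 * D.n)) (4 * D.n) g ∧
    (974 / 1000) * D.H * D.f ≤ Exc D.q ω (-(3 * D.n)) (-(2 * D.n)) g ∧
    (974 / 1000) * D.H * D.f ≤ Exc D.q ω (2 * D.n) (3 * D.n) g

/-- Pieces of geodesics and of leftmost geodesics. -/
def T_GEO : Prop := ∀ (ω : Env) (u v : Site) (g : ℤ → ℤ) (s t : ℤ), u.1 ≤ s → s ≤ t → t ≤ v.1 →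
  (Geo ω u v g → Geo ω (s, g s) (t, g t) g) ∧ (LGeo ω u v g → LGeo ω (s, g s) (t, g t) g)

/-- Existence of leftmost geodesics. -/
def T_LEX : Prop := ∀ (ω : Env) (u v : Site), Reach u v → ∃ g, LGeo ω u v g

/-- The conclusion of the deterministic insertion lemma. -/
structure InsC (D : Dat) (ω ω' : Env) (o e : Site) (γ : ℤ → ℤ) : Prop where
  lo : T ω' o e + (1993 / 1000) * D.H * D.f ≤ T ω o e
  up : T ω o e ≤ T ω' o e + (2006 / 1000) * D.H * D.f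
  re : ∀ m, IsPath (-(4 * D.n)) (4 * D.n) m → m (-(4 * D.n)) = 0 → m (4 * D.n) = 0 →
    Mlow D ≤ wt ω (-(4 * D.n)) (4 * D.n) m →
    ∃ g, Near ω o e (13 * D.H * D.f / 1000) g ∧ (∀ r ≤ -(256 * D.n), g r = γ r) ∧
      (∀ r, 256 * D.n ≤ r → g r = γ r) ∧ (∀ r, -(4 * D.n) ≤ r → r ≤ 4 * D.n → g r = m r)
  hw : ∀ g, Near ω o e (14 * D.H * D.f / 1000) g →
    Stay (16 * D.A * D.w) (-(4 * D.n)) (4 * D.n) g ∧
    (974 / 1000) * D.H * D.f ≤ Exc D.q ω (-(3 * D.n)) (-(2 * D.n)) g ∧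
    (974 / 1000) * D.H * D.f ≤ Exc D.q ω (2 * D.n) (3 * D.n) g
  me : ∀ g g', Near ω o e (14 * D.H * D.f / 1000) g → Near ω o e (14 * D.H * D.f / 1000) g' →
    (∃ r, -(3 * D.n) < r ∧ r ≤ -(2 * D.n) ∧ g r = g' r) ∧
    (∃ r, 2 * D.n < r ∧ r ≤ 3 * D.n ∧ g r = g' r)
  ga : ∀ Gam, LGeo ω (-(4 * D.n), 0) (4 * D.n, 0) Gam →
    (∀ r, -(4 * D.n) ≤ r → r ≤ 4 * D.n → |Gam r| < D.A * D.w) ∧
    ∀ Lam, LGeo ω o e Lam → ∀ r, -(2 * D.n) ≤ r → r ≤ 2 * D.n → Lam r = Gam r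

/-- The deterministic insertion lemma. -/
def T_DET : Prop := ∀ (D : Dat) (ω ω' : Env) (o e : Site), D.Ok → Agree D ω ω' → Ends D o e →
  Ev D ω → RR D ω o e → O1 D ω' → O2 D ω' → ∀ γ, O3 D ω' o e γ → InsC D ω ω' o e γ

/-- The local leftmost geodesic depends on the box only. -/
def T_GIN : Prop := ∀ (D : Dat) (ω out out' : Env) (g g' : ℤ → ℤ), 
  LGeo (splice (Bx D) ω out) (-(4 * D.n), 0) (4 * D.n, 0) g →
  LGeo (splice (Bx D) ω out') (-(4 * D.n), 0) (4 * D.n, 0) g' →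
  (∀ r, -(4 * D.n) ≤ r → r ≤ 4 * D.n → |g r| < D.A * D.w) →
  (∀ r, -(4 * D.n) ≤ r → r ≤ 4 * D.n → |g' r| < D.A * D.w) →
  ∀ r, -(4 * D.n) ≤ r → r ≤ 4 * D.n → g r = g' r

end Pool.Agent.H95.INS
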